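import Pool.Agent.Y522.Stm

/-!
# Perturbations of the identity, germs tangent to the identity, a small push (project SH)
-/

set_option autoImplicit false

open Set Filter Topology Metric Function MeasureTheory
open scoped Manifold ContDiff

noncomputable section

namespace Pool.Agent.Y248.SH

open Pool.Agent.Y522

/-- Small perturbations of the identity are diffeomorphisms. -/
theorem pert {n : ℕ} (u : E n → E n) (c : NNReal) (hc : c < 1) (hu : ∀ x, ContDiffAt ℝ ∞ u x)
    (hl : LipschitzWith c u) :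
    Bijective (fun y => y + u y) ∧ ∀ x, LD n (fun y => y + u y) x := by
  have hc' : (c : ℝ) < 1 := by exact_mod_cast hc
  refine ⟨⟨?_, ?_⟩, ?_⟩
  · intro x y hxy
    have h1 : x + u x = y + u y := hxy
    have h2 : x - y = -(u x - u y) := by
      have : x - y = (x + u x) - (y + u y) - (u x - u y) := by abel
      rw [this, h1]; abel
    have h3 := hl.norm_sub_le x y
    have h4 : ‖x - y‖ ≤ c * ‖x - y‖ := by
      nth_rewrite 1 [h2]
      rw [norm_neg]
      exact h3
    have h5 : ‖x - y‖ = 0 := by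
      have := norm_nonneg (x - y)
      by_contra h
      have h6 : 0 < ‖x - y‖ := lt_of_le_of_ne this (Ne.symm h)
      nlinarith
    exact sub_eq_zero.1 (norm_eq_zero.1 h5)
  · intro z
    have h1 : ContractingWith c (fun y => z - u y) := by
      refine ⟨hc, ?_⟩
      refine LipschitzWith.of_dist_le_mul fun x y => ?_
      rw [dist_eq_norm]
      have : z - u x - (z - u y) = -(u x - u y) := by abel
      rw [this, norm_neg, dist_eq_norm]
      exact hl.norm_sub_le x y
    refine ⟨h1.fixedPoint, ?_⟩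
    have h2 : z - u h1.fixedPoint = h1.fixedPoint := h1.fixedPoint_isFixedPt
    show h1.fixedPoint + u h1.fixedPoint = z
    nth_rewrite 1 [← h2]
    abel
  · intro x
    have h1 : ‖fderiv ℝ u x‖ ≤ c := norm_fderiv_le_of_lipschitz ℝ hl
    have h2 : ‖-fderiv ℝ u x‖ < 1 := by rw [norm_neg]; linarith
    refine LD_of_contDiffAt (Eventually.of_forall fun y => contDiffAt_id.add (hu y))
      (ContinuousLinearEquiv.unitsEquiv ℝ (E n) (Units.oneSub (-fderiv ℝ u x) h2)) ?_
    have h3 : ((ContinuousLinearEquiv.unitsEquiv ℝ (E n) (Units.oneSub (-fderiv ℝ u x) h2) :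
        E n ≃L[ℝ] E n) : E n →L[ℝ] E n) = ContinuousLinearMap.id ℝ (E n) + fderiv ℝ u x := by
      ext1 v
      simp [ContinuousLinearEquiv.unitsEquiv_apply]
    rw [h3]
    exact (hasFDerivAt_id x).add ((hu x).differentiableAt (by simp)).hasFDerivAt

/-- a bump function equal to `1` on the closed ball of radius `r` and to `0` outside the ball of
radius `2 r` -/
def bmp (n : ℕ) (r : ℝ) (hr : 0 < r) : ContDiffBump (0 : E n) :=
  ⟨r, 2 * r, hr, by linarith⟩

theorem bmp_lip (n : ℕ) (r : ℝ) (hr : 0 < r) : ∃ C : NNReal, LipschitzWith C (bmp n r hr) :=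
  ContDiff.lipschitzWith_of_hasCompactSupport (bmp n r hr).hasCompactSupport
    ((bmp n r hr).contDiff (n := ⊤)) (by simp)

theorem germ : StGerm := by
  intro n p hp hp0 hd ε hε
  obtain ⟨C, hC⟩ := bmp_lip n 1 one_pos
  set b : E n → ℝ := fun y => bmp n 1 one_pos y with hb
  have hC0 : (0 : ℝ) ≤ C := C.2
  -- the displacement
  set q : E n → E n := fun y => p y - y with hq
  have hqs : ∀ᶠ y in 𝓝 (0 : E n), ContDiffAt ℝ ∞ q y := by
    filter_upwards [hp] with y hy
    exact hy.sub contDiffAt_id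
  have hq0 : q 0 = 0 := by simp [hq, hp0]
  have hqd : fderiv ℝ q 0 = 0 := by
    have h1 : HasFDerivAt q (ContinuousLinearMap.id ℝ (E n) - ContinuousLinearMap.id ℝ (E n)) 0 :=
      hd.sub (hasFDerivAt_id 0)
    rw [sub_self] at h1
    exact h1.fderiv
  set w : ℝ := 1 / (2 * (1 + 2 * C)) with hw
  have hw0 : 0 < w := by positivity
  have hcont : ContinuousAt (fderiv ℝ q) 0 :=
    (hqs.self_of_nhds.fderiv_right (m := 0) (by simp)).continuousAt
  have hsmall : ∀ᶠ y in 𝓝 (0 : E n), ‖fderiv ℝ q y‖ < w := by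
    have h1 : Tendsto (fun y => ‖fderiv ℝ q y‖) (𝓝 0) (𝓝 ‖fderiv ℝ q 0‖) := hcont.norm
    rw [hqd, norm_zero] at h1
    exact h1.eventually (gt_mem_nhds hw0)
  obtain ⟨r, hr, hball⟩ := Metric.eventually_nhds_iff_ball.1 (hqs.and hsmall)
  have hqlip : ∀ x ∈ ball (0 : E n) r, ∀ y ∈ ball (0 : E n) r, ‖q x - q y‖ ≤ w * ‖x - y‖ := by
    intro x hx y hy
    exact Convex.norm_image_sub_le_of_norm_fderiv_le (𝕜 := ℝ) (s := ball (0 : E n) r)
      (fun z hz => (hball z hz).1.differentiableAt (by simp))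
      (fun z hz => (hball z hz).2.le) (convex_ball _ _) hy hx
  set δ : ℝ := min (r / 3) (ε / 2) with hδ
  have hδ0 : 0 < δ := lt_min (by linarith) (by linarith)
  have hδr : 2 * δ < r := by
    have := min_le_left (r / 3) (ε / 2)
    rw [← hδ] at this
    linarith
  have hδε : 2 * δ ≤ ε := by
    have := min_le_right (r / 3) (ε / 2)
    rw [← hδ] at this
    linarith
  set χ : E n → ℝ := fun y => b (δ⁻¹ • y) with hχ
  have hχs : ContDiff ℝ ∞ χ := (bmp n 1 one_pos).contDiff.comp (contDiff_const_smul _)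
  have hχ0 : ∀ y, 2 * δ ≤ ‖y‖ → χ y = 0 := by
    intro y hy
    apply (bmp n 1 one_pos).zero_of_le_dist
    rw [dist_zero_right, norm_smul, norm_inv, Real.norm_eq_abs, abs_of_pos hδ0]
    show 2 * 1 ≤ δ⁻¹ * ‖y‖
    rw [mul_one, ← div_eq_inv_mul, le_div_iff₀ hδ0]
    exact hy
  have hχn : ∀ y, 0 ≤ χ y ∧ χ y ≤ 1 := fun y =>
    ⟨(bmp n 1 one_pos).nonneg, (bmp n 1 one_pos).le_one⟩
  have hχl : ∀ x y, |χ x - χ y| ≤ C / δ * ‖x - y‖ := by
    intro x y
    have h1 := hC.dist_le_mul (δ⁻¹ • x) (δ⁻¹ • y)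
    rw [Real.dist_eq, dist_eq_norm, ← smul_sub, norm_smul, norm_inv, Real.norm_eq_abs,
      abs_of_pos hδ0] at h1
    calc |χ x - χ y| ≤ C * (δ⁻¹ * ‖x - y‖) := h1
      _ = _ := by ring
  have hin : ∀ y, χ y ≠ 0 → y ∈ ball (0 : E n) r ∧ ‖q y‖ ≤ w * (2 * δ) := by
    intro y hy
    have h1 : ‖y‖ < 2 * δ := by
      by_contra h
      exact hy (hχ0 y (not_lt.1 h))
    have h2 : y ∈ ball (0 : E n) r := by rw [mem_ball_zero_iff]; linarith
    refine ⟨h2, ?_⟩
    have h3 := hqlip y h2 0 (mem_ball_self hr)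
    rw [hq0, sub_zero, sub_zero] at h3
    exact h3.trans (mul_le_mul_of_nonneg_left h1.le hw0.le)
  set u : E n → E n := fun y => χ y • q y with hu
  have hus : ∀ x, ContDiffAt ℝ ∞ u x := by
    intro x
    by_cases hx : ‖x‖ < r
    · exact hχs.contDiffAt.smul (hball x (by rwa [mem_ball_zero_iff])).1
    · have h1 : u =ᶠ[𝓝 x] fun _ => (0 : E n) := by
        have h2 : {y : E n | 2 * δ < ‖y‖} ∈ 𝓝 x :=
          (isOpen_lt continuous_const continuous_norm).mem_nhds (by
            show 2 * δ < ‖x‖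
            linarith [not_lt.1 hx])
        filter_upwards [h2] with y hy
        simp only [hu, hχ0 y (le_of_lt hy), zero_smul]
      exact contDiffAt_const.congr_of_eventuallyEq h1
  have hwc : w * (1 + 2 * C) = 1 / 2 := by
    rw [hw]; field_simp
  have hCδ : C / δ * (w * (2 * δ)) = 2 * C * w := by field_simp
  have hul : LipschitzWith (1 / 2) u := by
    refine LipschitzWith.of_dist_le_mul fun x y => ?_
    rw [dist_eq_norm, dist_eq_norm]
    have hhalf : (((1 / 2 : NNReal)) : ℝ) = 1 / 2 := by norm_num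
    rw [hhalf]
    have hxy := norm_nonneg (x - y)
    have hCw : 0 ≤ C * w := mul_nonneg hC0 hw0.le
    have side : ∀ x y, χ x ≠ 0 → χ y = 0 → ‖u x - u y‖ ≤ 1 / 2 * ‖x - y‖ := by
      intro x y hx hy
      have h1 : u x - u y = (χ x - χ y) • q x := by
        simp only [hu, hy, zero_smul, sub_zero]
      rw [h1, norm_smul, Real.norm_eq_abs]
      have hxy := norm_nonneg (x - y)
      calc |χ x - χ y| * ‖q x‖ ≤ (C / δ * ‖x - y‖) * (w * (2 * δ)) :=
            mul_le_mul (hχl x y) (hin x hx).2 (norm_nonneg _) (by positivity)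
        _ = (2 * C * w) * ‖x - y‖ := by rw [← hCδ]; ring
        _ ≤ 1 / 2 * ‖x - y‖ := by
            apply mul_le_mul_of_nonneg_right _ hxy
            nlinarith
    by_cases hx : χ x = 0
    · by_cases hy : χ y = 0
      · simp only [hu, hx, hy, zero_smul, sub_zero, norm_zero]
        positivity
      · rw [← norm_neg, neg_sub, ← norm_neg (x - y), neg_sub]
        exact side y x hy hx
    · by_cases hy : χ y = 0
      · exact side x y hx hy
      · have h1 : u x - u y = χ x • (q x - q y) + (χ x - χ y) • q y := by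
          simp only [hu, smul_sub, sub_smul]; abel
        rw [h1]
        refine (norm_add_le _ _).trans ?_
        rw [norm_smul, norm_smul, Real.norm_eq_abs, Real.norm_eq_abs]
        have h2 : |χ x| * ‖q x - q y‖ ≤ 1 * (w * ‖x - y‖) := by
          apply mul_le_mul _ (hqlip x (hin x hx).1 y (hin y hy).1) (norm_nonneg _) zero_le_one
          rw [abs_of_nonneg (hχn x).1]
          exact (hχn x).2
        have h3 : |χ x - χ y| * ‖q y‖ ≤ (2 * C * w) * ‖x - y‖ := by
          calc |χ x - χ y| * ‖q y‖ ≤ (C / δ * ‖x - y‖) * (w * (2 * δ)) :=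
                mul_le_mul (hχl x y) (hin y hy).2 (norm_nonneg _) (by positivity)
            _ = _ := by rw [← hCδ]; ring
        calc |χ x| * ‖q x - q y‖ + |χ x - χ y| * ‖q y‖ ≤
              1 * (w * ‖x - y‖) + (2 * C * w) * ‖x - y‖ := add_le_add h2 h3
          _ = (w * (1 + 2 * C)) * ‖x - y‖ := by ring
          _ = _ := by rw [hwc]
  obtain ⟨hbij, hLD⟩ := pert u (1 / 2) (by
    rw [← NNReal.coe_lt_coe]; norm_num) hus hul
  refine ⟨fun y => y + u y, χ, hbij, hLD, ?_, fun y hy => hχ0 y (hδε.trans hy), hχn,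
    fun y => rfl⟩
  have h1 : ball (0 : E n) δ ∈ 𝓝 (0 : E n) := ball_mem_nhds _ hδ0
  filter_upwards [h1] with y hy
  have h2 : χ y = 1 := by
    apply (bmp n 1 one_pos).one_of_mem_closedBall
    rw [mem_closedBall_zero_iff, norm_smul, norm_inv, Real.norm_eq_abs, abs_of_pos hδ0]
    show δ⁻¹ * ‖y‖ ≤ 1
    rw [mem_ball_zero_iff] at hy
    rw [← div_eq_inv_mul, div_le_one hδ0]
    exact hy.le
  simp only [hu, hq, h2, one_smul]
  abel

theorem push : StPush := by
  intro m ρ hρ
  obtain ⟨C, hC⟩ := bmp_lip (m + 1) (ρ / 2) (by linarith)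
  set β : E (m + 1) → ℝ := fun y => bmp (m + 1) (ρ / 2) (by linarith) y with hβ
  have hC0 : (0 : ℝ) ≤ C := C.2
  have he0 : ‖(e0 : E (m + 1))‖ = 1 := by
    have h1 := norm_cn_sq (m := m) 1 0
    rw [norm_zero] at h1
    have h2 : ‖(e0 : E (m + 1))‖ ^ 2 = 1 := by
      unfold e0; rw [h1]; norm_num
    have h3 : (‖(e0 : E (m + 1))‖ - 1) * (‖(e0 : E (m + 1))‖ + 1) = 0 := by linear_combination h2
    rcases mul_eq_zero.1 h3 with h4 | h4
    · linarith
    · have := norm_nonneg (e0 : E (m + 1)); linarith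
  set r : ℝ := min (ρ / 4) (1 / (4 * (C + 1))) with hr
  have hr0 : 0 < r := lt_min (by linarith) (by positivity)
  have hr1 : r ≤ ρ / 4 := min_le_left _ _
  have hr2 : r * (4 * (C + 1)) ≤ 1 := by
    have : r ≤ 1 / (4 * (C + 1)) := min_le_right _ _
    rwa [le_div_iff₀ (by positivity)] at this
  set u : E (m + 1) → E (m + 1) := fun z => (-(2 * r * β z)) • e0 with hu
  have hus : ∀ x, ContDiffAt ℝ ∞ u x := by
    intro x
    have : ContDiff ℝ ∞ β := (bmp (m + 1) (ρ / 2) (by linarith)).contDiff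
    exact ((contDiff_const.mul this).neg.smul contDiff_const).contDiffAt
  have hul : LipschitzWith (1 / 2) u := by
    refine LipschitzWith.of_dist_le_mul fun x y => ?_
    rw [dist_eq_norm, dist_eq_norm]
    have hhalf : (((1 / 2 : NNReal)) : ℝ) = 1 / 2 := by norm_num
    rw [hhalf]
    have h1 : u x - u y = (-(2 * r * (β x - β y))) • e0 := by
      simp only [hu, ← sub_smul]
      congr 1
      ring
    rw [h1, norm_smul, he0, mul_one, norm_neg, Real.norm_eq_abs, abs_mul, abs_of_pos (by positivity)]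
    have h2 := hC.dist_le_mul x y
    rw [Real.dist_eq, dist_eq_norm] at h2
    have hxy := norm_nonneg (x - y)
    calc 2 * r * |β x - β y| ≤ 2 * r * (C * ‖x - y‖) := by gcongr
      _ = (2 * r * C) * ‖x - y‖ := by ring
      _ ≤ 1 / 2 * ‖x - y‖ := by
          apply mul_le_mul_of_nonneg_right _ hxy
          nlinarith
  obtain ⟨hbij, hLD⟩ := pert u (1 / 2) (by
    rw [← NNReal.coe_lt_coe]; norm_num) hus hul
  have hβ1 : ∀ z, 0 ≤ β z := fun z => (bmp (m + 1) (ρ / 2) (by linarith)).nonneg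
  have hhead : ∀ z, (z + u z) 0 = z 0 - 2 * r * β z := by
    intro z
    simp only [hu, PiLp.add_apply, PiLp.smul_apply, e0, cn_zero, smul_eq_mul]
    ring
  refine ⟨r, hr0, by linarith, fun z => z + u z, hbij, hLD, ?_, ?_, ?_⟩
  · intro z hz
    have h1 : β z = 0 := by
      apply (bmp (m + 1) (ρ / 2) (by linarith)).zero_of_le_dist
      rw [dist_zero_right]
      show 2 * (ρ / 2) ≤ ‖z‖
      linarith
    simp only [hu, h1, mul_zero, neg_zero, zero_smul, add_zero]
  · intro z
    rw [hhead]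
    have := mul_nonneg (mul_nonneg zero_le_two hr0.le) (hβ1 z)
    linarith
  · intro z hz
    rw [hhead]
    have h1 : β z = 1 := by
      apply (bmp (m + 1) (ρ / 2) (by linarith)).one_of_mem_closedBall
      rw [mem_closedBall_zero_iff]
      show ‖z‖ ≤ ρ / 2
      linarith
    rw [h1]
    have h2 := (le_abs_self (z 0)).trans (abs_head_le z)
    linarith

end Pool.Agent.Y248.SH
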